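import Mathlib
import Pool.Agent.H61.Intro

set_option autoImplicit false

namespace Pool.Agent.Results.MP_e27c09_lc.NoUniformSubset

/-- The canonical finite set `D_u`: the set of positions of the binary digits `1` of `u`. -/
def D (u : ℕ) : Set ℕ := {i | u.testBit i = true}

/-- `Θ(X) = {n : ∃ u, D_u ⊆ X and ⟨u,n⟩ ∈ Θ}`. -/
def app (Θ : Set (ℕ × ℕ)) (X : Set ℕ) : Set ℕ := {n | ∃ u, D u ⊆ X ∧ (u, n) ∈ Θ}

/-- An enumeration operator is a computably enumerable set of pairs `⟨u,n⟩`. -/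
def IsEnumOp (Θ : Set (ℕ × ℕ)) : Prop := REPred fun q : ℕ × ℕ => q ∈ Θ

/-- Enumeration reducibility `A ≤_e B`. -/
def ERed (A B : Set ℕ) : Prop := ∃ Θ : Set (ℕ × ℕ), IsEnumOp Θ ∧ app Θ B = A

/-- Enumeration equivalence `A ≡_e B`. -/
def EEquiv (A B : Set ℕ) : Prop := ERed A B ∧ ERed B A

/-- `A` is infinite and `A ≤_e C` for every infinite `C ⊆ A`. -/
def Introenumerable (A : Set ℕ) : Prop :=
  A.Infinite ∧ ∀ C : Set ℕ, C ⊆ A → C.Infinite → ERed A C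

/-- `A` is infinite and one enumeration operator `Θ` has `Θ(C) = A` for every infinite `C ⊆ A`. -/
def UniformlyIntroenumerable (A : Set ℕ) : Prop :=
  A.Infinite ∧ ∃ Θ : Set (ℕ × ℕ), IsEnumOp Θ ∧
    ∀ C : Set ℕ, C ⊆ A → C.Infinite → app Θ C = A

/-! ### Operators -/

theorem app_mono (Θ : Set (ℕ × ℕ)) : Monotone (app Θ) := by
  rintro X Y hXY n ⟨u, hu, h⟩
  exact ⟨u, hu.trans hXY, h⟩

/-- `D u` as a finset -/
def Df (u : ℕ) : Finset ℕ := (Finset.range u).filter (fun i => u.testBit i = true)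

theorem testBit_lt {u i : ℕ} (h : u.testBit i = true) : i < u :=
  lt_of_lt_of_le Nat.lt_two_pow_self (Nat.ge_two_pow_of_testBit h)

theorem mem_Df {u i : ℕ} : i ∈ Df u ↔ u.testBit i = true := by
  simp only [Df, Finset.mem_filter, Finset.mem_range]
  exact ⟨fun h => h.2, fun h => ⟨testBit_lt h, h⟩⟩

theorem coe_Df (u : ℕ) : (Df u : Set ℕ) = D u := by
  ext i
  simp [mem_Df, D]

theorem Df_surj (F : Finset ℕ) : ∃ u, Df u = F := by
  induction F using Finset.induction_on with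
  | empty => exact ⟨0, by ext i; simp [mem_Df]⟩
  | insert x F _ ih =>
    obtain ⟨u, rfl⟩ := ih
    refine ⟨u ||| 2 ^ x, ?_⟩
    ext i
    rw [mem_Df, Finset.mem_insert, mem_Df, Nat.testBit_lor, Nat.testBit_two_pow]
    simp only [Bool.or_eq_true, decide_eq_true_eq]
    constructor
    · rintro (h | h)
      · exact Or.inr h
      · exact Or.inl h.symm
    · rintro (h | h)
      · exact Or.inr h.symm
      · exact Or.inl h

theorem app_fin (Θ : Set (ℕ × ℕ)) (X : Set ℕ) (n : ℕ) (h : n ∈ app Θ X) :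
    ∃ F : Finset ℕ, (F : Set ℕ) ⊆ X ∧ n ∈ app Θ F := by
  obtain ⟨u, hu, h⟩ := h
  exact ⟨Df u, by rwa [coe_Df], u, by rw [coe_Df], h⟩

theorem app_app_fin (Θ Θ' : Set (ℕ × ℕ)) (X : Set ℕ) (n : ℕ) (h : n ∈ app Θ (app Θ' X)) :
    ∃ F : Finset ℕ, (F : Set ℕ) ⊆ X ∧ n ∈ app Θ (app Θ' F) := by
  obtain ⟨F, hF, hn⟩ := app_fin Θ _ n h
  have key : ∀ G : Finset ℕ, (G : Set ℕ) ⊆ app Θ' X →
      ∃ F' : Finset ℕ, (F' : Set ℕ) ⊆ X ∧ (G : Set ℕ) ⊆ app Θ' F' := by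
    intro G
    induction G using Finset.induction_on with
    | empty => exact fun _ => ⟨∅, by simp, by simp⟩
    | insert x G _ ih =>
      intro hG
      rw [Finset.coe_insert, Set.insert_subset_iff] at hG
      obtain ⟨F₁, h1, h2⟩ := ih hG.2
      obtain ⟨F₂, h3, h4⟩ := app_fin Θ' X x hG.1
      refine ⟨F₁ ∪ F₂, by rw [Finset.coe_union]; exact Set.union_subset h1 h3, ?_⟩
      rw [Finset.coe_insert, Set.insert_subset_iff, Finset.coe_union]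
      exact ⟨app_mono Θ' Set.subset_union_right h4,
        h2.trans (app_mono Θ' Set.subset_union_left)⟩
  obtain ⟨F', h1, h2⟩ := key F hF
  exact ⟨F', h1, app_mono Θ h2 hn⟩

/-! ### Countably many operators -/

/-- a list of all c.e. sets of pairs -/
def ops (i : ℕ) : Set (ℕ × ℕ) :=
  {q | ((Denumerable.ofNat Nat.Partrec.Code i).eval (Encodable.encode q)).Dom}

theorem exists_ops (Θ : Set (ℕ × ℕ)) (h : IsEnumOp Θ) : ∃ i, ops i = Θ := by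
  unfold IsEnumOp REPred Partrec at h
  obtain ⟨c, hc⟩ := Nat.Partrec.Code.exists_code.1 h
  refine ⟨Encodable.encode c, ?_⟩
  ext q
  have h1 : q ∈ ops (Encodable.encode c) ↔
      ((Denumerable.ofNat Nat.Partrec.Code (Encodable.encode c)).eval (Encodable.encode q)).Dom :=
    Iff.rfl
  rw [h1, Denumerable.ofNat_encode, hc]
  simp only [Encodable.encodek, Part.coe_some, Part.bind_some, Part.map_Dom]
  exact ⟨fun h => h.1, fun h => ⟨h, trivial⟩⟩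

/-! ### The coding of finite families -/

/-- the finite family coded by `a` -/
def K (a : ℕ) : Finset (Finset ℕ) := (Df (Nat.unpair a).1).image Df

theorem K_surj (F : Finset (Finset ℕ)) (N : ℕ) : ∃ a ≥ N, K a = F := by
  choose idx hidx using Df_surj
  obtain ⟨c, hc⟩ := Df_surj (F.image idx)
  refine ⟨Nat.pair c N, Nat.right_le_pair c N, ?_⟩
  ext V
  simp only [K, Nat.unpair_pair, hc, Finset.mem_image]
  constructor
  · rintro ⟨_, ⟨W, hW, rfl⟩, rfl⟩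
    rwa [hidx]
  · intro hV
    exact ⟨idx V, ⟨V, hV, rfl⟩, hidx V⟩

theorem forall_K {a : ℕ} {P : Finset ℕ → Prop} :
    (∀ V ∈ K a, P V) ↔ ∀ v < (Nat.unpair a).1, (Nat.unpair a).1.testBit v = true → P (Df v) := by
  simp only [K, Finset.forall_mem_image, mem_Df]
  exact ⟨fun h v _ hv => h hv, fun h v hv => h v (testBit_lt hv) hv⟩

/-! ### The two decoding operators -/

def S0 (b a y : ℕ) : Prop := y ≤ b ∧ ∀ V ∈ K a, b ∈ V → y ∈ V

def S1 (b a y : ℕ) : Prop :=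
  y ≤ b ∧ ∀ V ∈ K a, b ∈ V → (y ∈ V ∨ ∀ W ∈ K a, b ∈ W → ∀ z ≤ b, z ∈ V → z ∈ W)

def T0 : Set (ℕ × ℕ) :=
  {q | ∃ a < q.1, ∃ b < a, b ∈ Df q.1 ∧ a ∈ Df q.1 ∧ S0 b a q.2}

def T1 (N : ℕ) : Set (ℕ × ℕ) :=
  {q | ∃ a < q.1, ∃ b < a, N ≤ b ∧ b ∈ Df q.1 ∧ a ∈ Df q.1 ∧ S1 b a q.2}

theorem mem_app_T0 (C : Set ℕ) (y : ℕ) :
    y ∈ app T0 C ↔ ∃ b a, b < a ∧ b ∈ C ∧ a ∈ C ∧ S0 b a y := by
  constructor
  · rintro ⟨u, hu, a, _, b, hba, hb, ha, h⟩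
    rw [← coe_Df] at hu
    exact ⟨b, a, hba, hu hb, hu ha, h⟩
  · rintro ⟨b, a, hba, hb, ha, h⟩
    obtain ⟨u, hu⟩ := Df_surj {b, a}
    have hb' : b ∈ Df u := by rw [hu]; simp
    have ha' : a ∈ Df u := by rw [hu]; simp
    refine ⟨u, ?_, a, testBit_lt (mem_Df.1 ha'), b, hba, hb', ha', h⟩
    rw [← coe_Df, hu]
    intro x hx
    simp only [Finset.coe_insert, Finset.coe_singleton, Set.mem_insert_iff,
      Set.mem_singleton_iff] at hx
    rcases hx with rfl | rfl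
    · exact hb
    · exact ha

theorem mem_app_T1 (N : ℕ) (C : Set ℕ) (y : ℕ) :
    y ∈ app (T1 N) C ↔ ∃ b a, N ≤ b ∧ b < a ∧ b ∈ C ∧ a ∈ C ∧ S1 b a y := by
  constructor
  · rintro ⟨u, hu, a, _, b, hba, hN, hb, ha, h⟩
    rw [← coe_Df] at hu
    exact ⟨b, a, hN, hba, hu hb, hu ha, h⟩
  · rintro ⟨b, a, hN, hba, hb, ha, h⟩
    obtain ⟨u, hu⟩ := Df_surj {b, a}
    have hb' : b ∈ Df u := by rw [hu]; simp
    have ha' : a ∈ Df u := by rw [hu]; simp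
    refine ⟨u, ?_, a, testBit_lt (mem_Df.1 ha'), b, hba, hN, hb', ha', h⟩
    rw [← coe_Df, hu]
    intro x hx
    simp only [Finset.coe_insert, Finset.coe_singleton, Set.mem_insert_iff,
      Set.mem_singleton_iff] at hx
    rcases hx with rfl | rfl
    · exact hb
    · exact ha

/-! ### The decoding operators are computably enumerable -/

/-- bit test as an arithmetical predicate -/
def TB (u i : ℕ) : Prop := u / 2 ^ i % 2 = 1

theorem TB_iff {u i : ℕ} : TB u i ↔ u.testBit i = true := by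
  rw [Nat.testBit_eq_decide_div_mod_eq, decide_eq_true_eq]
  exact Iff.rfl

theorem mem_Df_TB {u i : ℕ} : i ∈ Df u ↔ TB u i := by
  rw [mem_Df, TB_iff]

theorem primrec_pow : Primrec₂ (fun a b : ℕ => a ^ b) :=
  Primrec₂.unpaired'.1 Nat.Primrec.pow

theorem primrec_TB {α : Type} [Primcodable α] {f g : α → ℕ} (hf : Primrec f) (hg : Primrec g) :
    PrimrecPred fun x => TB (f x) (g x) :=
  Primrec.eq.comp (Primrec.nat_mod.comp (Primrec.nat_div.comp hf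
    (primrec_pow.comp (Primrec.const 2) hg)) (Primrec.const 2)) (Primrec.const 1)

theorem ex_lt {α : Type} [Primcodable α] {f : α → ℕ} (hf : Primrec f) {Q : ℕ × α → Prop}
    (hQ : PrimrecPred Q) : PrimrecPred fun x => ∃ n < f x, Q (n, x) := by
  have h : PrimrecRel fun (n : ℕ) (x : α) => Q (n, x) := hQ
  exact ((h.exists_mem_list).comp (Primrec.list_range.comp hf) Primrec.id).of_eq (by simp)

theorem all_lt {α : Type} [Primcodable α] {f : α → ℕ} (hf : Primrec f) {Q : ℕ × α → Prop}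
    (hQ : PrimrecPred Q) : PrimrecPred fun x => ∀ n < f x, Q (n, x) := by
  have h : PrimrecRel fun (n : ℕ) (x : α) => Q (n, x) := hQ
  exact ((h.forall_mem_list).comp (Primrec.list_range.comp hf) Primrec.id).of_eq (by simp)

theorem imp_pr {α : Type} [Primcodable α] {P Q : α → Prop} (hP : PrimrecPred P)
    (hQ : PrimrecPred Q) : PrimrecPred fun x => P x → Q x :=
  (hP.not.or hQ).of_eq fun x => by tauto

theorem S0_iff (b a y : ℕ) : S0 b a y ↔ y ≤ b ∧ ∀ v < (Nat.unpair a).1,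
    TB (Nat.unpair a).1 v → TB v b → TB v y := by
  unfold S0
  rw [forall_K]
  simp only [mem_Df_TB, ← TB_iff]

theorem S1_iff (b a y : ℕ) : S1 b a y ↔ y ≤ b ∧ ∀ v < (Nat.unpair a).1,
    TB (Nat.unpair a).1 v → TB v b → (TB v y ∨ ∀ w < (Nat.unpair a).1,
      TB (Nat.unpair a).1 w → TB w b → ∀ z < b + 1, TB v z → TB w z) := by
  unfold S1
  rw [forall_K]
  simp only [mem_Df_TB, ← TB_iff, forall_K, Nat.lt_succ_iff]

theorem isEnumOp_T0 : IsEnumOp T0 := by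
  have hv : Primrec fun t : ℕ × (ℕ × (ℕ × (ℕ × ℕ))) => t.1 := Primrec.fst
  have hb : Primrec fun t : ℕ × (ℕ × (ℕ × (ℕ × ℕ))) => t.2.1 := Primrec.fst.comp Primrec.snd
  have ha : Primrec fun t : ℕ × (ℕ × (ℕ × (ℕ × ℕ))) => t.2.2.1 :=
    Primrec.fst.comp (Primrec.snd.comp Primrec.snd)
  have hy : Primrec fun t : ℕ × (ℕ × (ℕ × (ℕ × ℕ))) => t.2.2.2.2 :=
    Primrec.snd.comp (Primrec.snd.comp (Primrec.snd.comp Primrec.snd))
  have hc : Primrec fun t : ℕ × (ℕ × (ℕ × (ℕ × ℕ))) => (Nat.unpair t.2.2.1).1 :=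
    Primrec.fst.comp (Primrec.unpair.comp ha)
  have hb' : Primrec fun t : ℕ × (ℕ × (ℕ × ℕ)) => t.1 := Primrec.fst
  have ha' : Primrec fun t : ℕ × (ℕ × (ℕ × ℕ)) => t.2.1 := Primrec.fst.comp Primrec.snd
  have hu' : Primrec fun t : ℕ × (ℕ × (ℕ × ℕ)) => t.2.2.1 :=
    Primrec.fst.comp (Primrec.snd.comp Primrec.snd)
  have hy' : Primrec fun t : ℕ × (ℕ × (ℕ × ℕ)) => t.2.2.2 :=
    Primrec.snd.comp (Primrec.snd.comp Primrec.snd)
  have hc' : Primrec fun t : ℕ × (ℕ × (ℕ × ℕ)) => (Nat.unpair t.2.1).1 :=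
    Primrec.fst.comp (Primrec.unpair.comp ha')
  have h1 : PrimrecPred fun t : ℕ × (ℕ × (ℕ × (ℕ × ℕ))) =>
      TB (Nat.unpair t.2.2.1).1 t.1 → TB t.1 t.2.1 → TB t.1 t.2.2.2.2 :=
    imp_pr (primrec_TB hc hv) (imp_pr (primrec_TB hv hb) (primrec_TB hv hy))
  have h2 := all_lt hc' h1
  have h3 : PrimrecPred fun t : ℕ × (ℕ × (ℕ × ℕ)) => TB t.2.2.1 t.1 ∧ TB t.2.2.1 t.2.1 ∧
      (t.2.2.2 ≤ t.1 ∧ ∀ v < (Nat.unpair t.2.1).1,
        TB (Nat.unpair t.2.1).1 v → TB v t.1 → TB v t.2.2.2) :=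
    (primrec_TB hu' hb').and ((primrec_TB hu' ha').and ((Primrec.nat_le.comp hy' hb').and h2))
  have h4 := ex_lt (f := fun t : ℕ × (ℕ × ℕ) => t.1) Primrec.fst h3
  have h5 := ex_lt (f := fun t : ℕ × ℕ => t.1) Primrec.fst h4
  refine (h5.computablePred.to_re).of_eq fun q => ?_
  simp only [T0, S0_iff, mem_Df_TB]
  exact Iff.rfl

theorem isEnumOp_T1 (N : ℕ) : IsEnumOp (T1 N) := by
  have h0 : PrimrecPred fun t : ℕ × (ℕ × (ℕ × (ℕ × (ℕ × (ℕ × ℕ))))) =>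
      TB t.2.2.1 t.1 → TB t.2.1 t.1 :=
    imp_pr (primrec_TB (Primrec.fst.comp (Primrec.snd.comp Primrec.snd)) Primrec.fst)
      (primrec_TB (Primrec.fst.comp Primrec.snd) Primrec.fst)
  -- t = (w, (v, (b, (a, q))))
  have hw1 : Primrec fun t : ℕ × (ℕ × (ℕ × (ℕ × (ℕ × ℕ)))) => t.1 := Primrec.fst
  have hb1 : Primrec fun t : ℕ × (ℕ × (ℕ × (ℕ × (ℕ × ℕ)))) => t.2.2.1 :=
    Primrec.fst.comp (Primrec.snd.comp Primrec.snd)
  have ha1 : Primrec fun t : ℕ × (ℕ × (ℕ × (ℕ × (ℕ × ℕ)))) => t.2.2.2.1 :=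
    Primrec.fst.comp (Primrec.snd.comp (Primrec.snd.comp Primrec.snd))
  have hc1 : Primrec fun t : ℕ × (ℕ × (ℕ × (ℕ × (ℕ × ℕ)))) => (Nat.unpair t.2.2.2.1).1 :=
    Primrec.fst.comp (Primrec.unpair.comp ha1)
  have hb1' : Primrec fun t : ℕ × (ℕ × (ℕ × (ℕ × (ℕ × ℕ)))) => t.2.2.1 + 1 :=
    Primrec.succ.comp hb1
  have h0' := all_lt hb1' h0
  have h1 : PrimrecPred fun t : ℕ × (ℕ × (ℕ × (ℕ × (ℕ × ℕ)))) =>
      TB (Nat.unpair t.2.2.2.1).1 t.1 → TB t.1 t.2.2.1 →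
        ∀ z < t.2.2.1 + 1, TB t.2.1 z → TB t.1 z :=
    imp_pr (primrec_TB hc1 hw1) (imp_pr (primrec_TB hw1 hb1) h0')
  -- t = (v, (b, (a, q)))
  have hv : Primrec fun t : ℕ × (ℕ × (ℕ × (ℕ × ℕ))) => t.1 := Primrec.fst
  have hb : Primrec fun t : ℕ × (ℕ × (ℕ × (ℕ × ℕ))) => t.2.1 := Primrec.fst.comp Primrec.snd
  have ha : Primrec fun t : ℕ × (ℕ × (ℕ × (ℕ × ℕ))) => t.2.2.1 :=
    Primrec.fst.comp (Primrec.snd.comp Primrec.snd)
  have hy : Primrec fun t : ℕ × (ℕ × (ℕ × (ℕ × ℕ))) => t.2.2.2.2 :=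
    Primrec.snd.comp (Primrec.snd.comp (Primrec.snd.comp Primrec.snd))
  have hc : Primrec fun t : ℕ × (ℕ × (ℕ × (ℕ × ℕ))) => (Nat.unpair t.2.2.1).1 :=
    Primrec.fst.comp (Primrec.unpair.comp ha)
  have h1' := all_lt hc h1
  have h2 : PrimrecPred fun t : ℕ × (ℕ × (ℕ × (ℕ × ℕ))) =>
      TB (Nat.unpair t.2.2.1).1 t.1 → TB t.1 t.2.1 → (TB t.1 t.2.2.2.2 ∨
        ∀ w < (Nat.unpair t.2.2.1).1, TB (Nat.unpair t.2.2.1).1 w → TB w t.2.1 →
          ∀ z < t.2.1 + 1, TB t.1 z → TB w z) :=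
    imp_pr (primrec_TB hc hv) (imp_pr (primrec_TB hv hb) ((primrec_TB hv hy).or h1'))
  have hb' : Primrec fun t : ℕ × (ℕ × (ℕ × ℕ)) => t.1 := Primrec.fst
  have ha' : Primrec fun t : ℕ × (ℕ × (ℕ × ℕ)) => t.2.1 := Primrec.fst.comp Primrec.snd
  have hu' : Primrec fun t : ℕ × (ℕ × (ℕ × ℕ)) => t.2.2.1 :=
    Primrec.fst.comp (Primrec.snd.comp Primrec.snd)
  have hy' : Primrec fun t : ℕ × (ℕ × (ℕ × ℕ)) => t.2.2.2 :=
    Primrec.snd.comp (Primrec.snd.comp Primrec.snd)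
  have hc' : Primrec fun t : ℕ × (ℕ × (ℕ × ℕ)) => (Nat.unpair t.2.1).1 :=
    Primrec.fst.comp (Primrec.unpair.comp ha')
  have h2' := all_lt hc' h2
  have h3 : PrimrecPred fun t : ℕ × (ℕ × (ℕ × ℕ)) => N ≤ t.1 ∧ TB t.2.2.1 t.1 ∧
      TB t.2.2.1 t.2.1 ∧ (t.2.2.2 ≤ t.1 ∧ ∀ v < (Nat.unpair t.2.1).1,
        TB (Nat.unpair t.2.1).1 v → TB v t.1 → (TB v t.2.2.2 ∨
        ∀ w < (Nat.unpair t.2.1).1, TB (Nat.unpair t.2.1).1 w → TB w t.1 →
          ∀ z < t.1 + 1, TB v z → TB w z)) :=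
    (Primrec.nat_le.comp (Primrec.const N) hb').and ((primrec_TB hu' hb').and
      ((primrec_TB hu' ha').and ((Primrec.nat_le.comp hy' hb').and h2')))
  have h4 := ex_lt (f := fun t : ℕ × (ℕ × ℕ) => t.1) Primrec.fst h3
  have h5 := ex_lt (f := fun t : ℕ × ℕ => t.1) Primrec.fst h4
  refine (h5.computablePred.to_re).of_eq fun q => ?_
  simp only [T1, S1_iff, mem_Df_TB]
  exact Iff.rfl

/-! ### The main theorem -/

theorem decode {A : Set ℕ} (h1 : ∀ a ∈ A, IsChain (· ⊆ ·) (K a : Set (Finset ℕ)) ∧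
      ∃ V₀ ∈ K a, ∀ x, x ∈ V₀ ↔ x ∈ A ∧ x < a)
    (h2 : ∀ b ∈ A, ∃ N, ∀ a ∈ A, N ≤ a → ∀ V ∈ K a, ∀ W ∈ K a, b ∈ V → b ∈ W →
        (∃ y ∈ A, y ≤ b ∧ y ∉ V) → (∃ y ∈ A, y ≤ b ∧ y ∉ W) → ∀ y ≤ b, (y ∈ V ↔ y ∈ W))
    {C : Set ℕ} (hC : C ⊆ A) (hCi : C.Infinite) : ERed A C := by
  have hbig : ∀ n, ∃ c ∈ C, n < c := fun n => by
    obtain ⟨c, hc, hn⟩ := hCi.exists_gt n
    exact ⟨c, hc, hn⟩
  by_cases hcase : ∃ N, ∀ b a, N ≤ b → b < a → b ∈ C → a ∈ C → ∀ y, S1 b a y → y ∈ A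
  · obtain ⟨N, hN⟩ := hcase
    refine ⟨T1 N, isEnumOp_T1 N, ?_⟩
    ext y
    rw [mem_app_T1]
    constructor
    · rintro ⟨b, a, hNb, hba, hb, ha, h⟩
      exact hN b a hNb hba hb ha y h
    · intro hy
      obtain ⟨b, hb, hbN⟩ := hbig (max N y)
      have hNb : N < b := lt_of_le_of_lt (le_max_left _ _) hbN
      have hyb : y < b := lt_of_le_of_lt (le_max_right _ _) hbN
      obtain ⟨N', hN'⟩ := h2 b (hC hb)
      obtain ⟨a, ha, haN⟩ := hbig (max b N')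
      have hba : b < a := lt_of_le_of_lt (le_max_left _ _) haN
      have haN' : N' ≤ a := le_of_lt (lt_of_le_of_lt (le_max_right _ _) haN)
      refine ⟨b, a, hNb.le, hba, hb, ha, hyb.le, ?_⟩
      intro V hV hbV
      by_cases hyV : y ∈ V
      · exact Or.inl hyV
      · refine Or.inr fun W hW hbW z hz hzV => ?_
        rcases (h1 a (hC ha)).1.total (Finset.mem_coe.2 hV) (Finset.mem_coe.2 hW) with h | h
        · exact h hzV
        · have hyW : y ∉ W := fun h' => hyV (h h')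
          exact (hN' a (hC ha) haN' V hV W hW hbV hbW ⟨y, hy, hyb.le, hyV⟩
            ⟨y, hy, hyb.le, hyW⟩ z hz).1 hzV
  · push Not at hcase
    refine ⟨T0, isEnumOp_T0, ?_⟩
    ext y
    rw [mem_app_T0]
    constructor
    · rintro ⟨b, a, hba, hb, ha, hyb, h⟩
      obtain ⟨V₀, hV₀, hV₀'⟩ := (h1 a (hC ha)).2
      exact ((hV₀' y).1 (h V₀ hV₀ ((hV₀' b).2 ⟨hC hb, hba⟩))).1
    · intro hy
      obtain ⟨b, a, hyb, hba, hb, ha, y₀, hS, hy₀⟩ := hcase y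
      refine ⟨b, a, hba, hb, ha, hyb, fun V hV hbV => ?_⟩
      obtain ⟨V₀, hV₀, hV₀'⟩ := (h1 a (hC ha)).2
      rcases hS.2 V₀ hV₀ ((hV₀' b).2 ⟨hC hb, hba⟩) with h | h
      · exact absurd ((hV₀' y₀).1 h).1 hy₀
      · exact h V hV hbV y hyb ((hV₀' y).2 ⟨hy, lt_of_le_of_lt hyb hba⟩)

/-- There is an introenumerable set `A` such that no infinite `B ⊆ A` is both uniformly
introenumerable and enumeration equivalent to `A`. -/
theorem result : ∃ A : Set ℕ, Introenumerable A ∧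
    ¬ ∃ B : Set ℕ, B ⊆ A ∧ B.Infinite ∧ UniformlyIntroenumerable B ∧ EEquiv B A := by
  obtain ⟨A, hAi, h1, h2, h3⟩ := Pool.Agent.H61.Intro.main K_surj
    (fun k => app (ops (Nat.unpair k).1))
    (fun k X => app (ops (Nat.unpair (Nat.unpair k).2).1)
      (app (ops (Nat.unpair (Nat.unpair k).2).2) X))
    (fun k => app_mono _) (fun k => (app_mono _).comp (app_mono _))
    (fun k X n h => app_fin _ X n h) (fun k X n h => app_app_fin _ _ X n h)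
  refine ⟨A, ⟨hAi, fun C hC hCi => decode h1 h2 hC hCi⟩, ?_⟩
  rintro ⟨B, hBA, hBi, ⟨_, Θ₃, hΘ₃, hunif⟩, ⟨Θ₁, hΘ₁, hB⟩, ⟨Θ₂, hΘ₂, hA⟩⟩
  obtain ⟨i, rfl⟩ := exists_ops Θ₁ hΘ₁
  obtain ⟨j, rfl⟩ := exists_ops Θ₂ hΘ₂
  obtain ⟨l, rfl⟩ := exists_ops Θ₃ hΘ₃
  apply h3 (Nat.pair i (Nat.pair j l))
  simp only [Nat.unpair_pair]
  rw [hB]
  refine ⟨hBA, hBi, fun C hC hCi => ?_⟩
  rw [hunif C hC hCi, hA]

end Pool.Agent.Results.MP_e27c09_lc.NoUniformSubset
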